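import Pool.Agent.MP_6a4325_al.H84.Spec3

/-!
Elements of a function field that are `p ^ a`-th powers for all `a` are constants.
-/

set_option autoImplicit false

namespace Pool.Agent.MP_6a4325_al.H36

open Pool.Agent.MP_6a4325_al.H84

theorem perf_anti {A B : Type} [Field A] [Field B] (p : ℕ) [ExpChar A p] (j : A →+* B) :
    Antitone fun a => (j.comp (iterateFrobenius A p a)).fieldRange := by
  rintro a b h _ ⟨y, rfl⟩
  refine ⟨y ^ p ^ (b - a), congrArg j ?_⟩
  rw [iterateFrobenius_def, iterateFrobenius_def, ← pow_mul, ← pow_add, Nat.sub_add_cancel h]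

theorem perf_dep {P O : Type} [CommRing P] [IsDomain P] [CommRing O] [IsDomain O] (g : P →+* O)
    (hg : g.Finite) : ∃ m : ℕ, ∀ y : FractionRing O, ∃ c : Fin (m + 1) → P, c ≠ 0 ∧
      ∑ i, algebraMap O _ (g (c i)) * y ^ (i : ℕ) = 0 := by
  let _ := g.toAlgebra
  have : Module.Finite P O := hg
  refine ⟨Module.finrank P O, fun y => ?_⟩
  obtain ⟨u, v, hv, rfl⟩ := IsFractionRing.div_surjective (A := O) y
  obtain ⟨c, h1, i, h2⟩ := Fintype.not_linearIndependent_iff.1 fun h : LinearIndependent P
    fun i : Fin (Module.finrank P O + 1) => u ^ (i : ℕ) * v ^ (Module.finrank P O - i) => by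
      simpa using h.fintype_card_le_finrank
  refine ⟨c, fun h => h2 (congrFun h i), ?_⟩
  have h0 := IsFractionRing.to_map_ne_zero_of_mem_nonZeroDivisors (K := FractionRing O) hv
  refine (mul_eq_zero.1 ?_).resolve_right (pow_ne_zero (Module.finrank P O) h0)
  rw [← map_zero (algebraMap O (FractionRing O)), ← h1, map_sum, Finset.sum_mul]
  refine Finset.sum_congr rfl fun i _ => ?_
  rw [Algebra.smul_def, map_mul, map_mul, map_pow, map_pow, pow_sub₀ _ h0 (Nat.lt_succ_iff.1 i.2),
    div_pow, RingHom.algebraMap_toAlgebra]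
  ring

theorem perf : SDesc → SPerf0 → SPerf := by
  intro hD h0 p _ K O _ _ _ _ _ _ _ z hz
  obtain ⟨s, g, g1, g2⟩ := exists_finite_inj_algHom_of_fg K O
  obtain ⟨m, hm⟩ := perf_dep g.toRingHom g2
  have := charP_of_injective_algebraMap (algebraMap K (FractionRing O)).injective p
  have := charP_of_injective_algebraMap
    (algebraMap K (FractionRing (MvPolynomial (Fin s) K))).injective p
  obtain ⟨j, hj⟩ : ∃ j : FractionRing (MvPolynomial (Fin s) K) →+* FractionRing O,
      ∀ x, j (algebraMap _ _ x) = algebraMap O _ (g x) :=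
    ⟨_, IsFractionRing.lift_algebraMap (g := (algebraMap O (FractionRing O)).comp g.toRingHom)
      ((IsFractionRing.injective O _).comp g1)⟩
  have hk : ∀ c : K, j (algebraMap K _ c) = algebraMap K _ c := fun c => by
    rw [IsScalarTower.algebraMap_apply K (MvPolynomial (Fin s) K), hj, g.commutes,
      ← IsScalarTower.algebraMap_apply]
  by_contra hn
  have ht : Transcendental K z := fun h => hn (minpoly.mem_range_of_degree_eq_one K z
    (IsAlgClosed.degree_eq_one_of_irreducible K (minpoly.irreducible h.isIntegral)))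
  obtain ⟨a, ha⟩ := hD _ _ (perf_anti p j) (Fin (m + 1)) (fun i => z ^ (i : ℕ)) fun c hc h => by
    have : ∀ i, ∃ k : K, algebraMap K _ k = c i := fun i => by
      obtain ⟨w, hw⟩ := hc i 0
      obtain ⟨k, hk'⟩ := h0 p K s (iterateFrobenius _ p 0 w) fun a =>
        (hc i a).imp fun y hy => j.injective (hy.trans hw.symm)
      exact ⟨k, by rw [← hk, hk']; exact hw⟩
    choose k hk' using this
    have e := transcendental_iff.1 ht (∑ i : Fin (m + 1), Polynomial.monomial (i : ℕ) (k i))
      (by simpa only [map_sum, Polynomial.aeval_monomial, hk'] using h)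
    funext i
    have := congrArg (Polynomial.coeff · (i : ℕ)) e
    simp only [Polynomial.finsetSum_coeff, Polynomial.coeff_monomial, Fin.val_inj,
      Finset.sum_ite_eq', Finset.mem_univ, if_true, Polynomial.coeff_zero] at this
    rw [← hk', this, map_zero, Pi.zero_apply]
  obtain ⟨y, rfl⟩ := hz a
  obtain ⟨c, c1, c2⟩ := hm y
  refine c1 (funext fun i => ?_)
  have := ha (fun i => j (algebraMap _ _ (c i)) ^ p ^ a) (fun i => ⟨_, map_pow j _ _⟩) (by
    have := congrArg (iterateFrobenius _ p a) c2
    simp only [map_sum, map_mul, map_pow, map_zero, iterateFrobenius_def, hj] at this ⊢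
    exact this)
  exact IsFractionRing.injective _ _ (j.injective ((pow_eq_zero_iff
    (pow_ne_zero a (Fact.out : p.Prime).ne_zero)).1 (congrFun this i) |>.trans (by simp)))

theorem frob : SDesc → SPerf → SFrob := by
  intro hD hP p _ K O ι _ _ _ _ _ _ _ _ f hf
  have := charP_of_injective_algebraMap (algebraMap K (FractionRing O)).injective p
  have := charP_of_injective_algebraMap (algebraMap K O).injective p
  have inj := IsFractionRing.injective O (FractionRing O)
  rw [Fintype.linearIndependent_iff] at hf
  obtain ⟨a, ha⟩ := hD _ _ (perf_anti p (RingHom.id (FractionRing O))) ι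
    (fun i => algebraMap O _ (f i)) fun c hc h => by
      choose k hk using fun i => hP p K O (c i) (hc i)
      funext i
      rw [← hk, hf k (inj ?_) i, map_zero, Pi.zero_apply]
      simpa only [map_sum, Algebra.smul_def, map_mul, ← IsScalarTower.algebraMap_apply, hk,
        map_zero] using h
  refine ⟨a, Fintype.linearIndependent_iff.2 fun c hc ij => ?_⟩
  have hq : p ^ a ≠ 0 := pow_ne_zero a (Fact.out : p.Prime).ne_zero
  choose d hd using fun ij => IsAlgClosed.exists_pow_nat_eq (c ij) (Nat.pos_of_ne_zero hq)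
  have := ha (fun i => algebraMap O _ (∑ j, d (i, j) • f j) ^ p ^ a) (fun i => ⟨_, rfl⟩) (by
    simp only [← map_pow, ← map_mul, ← map_sum]
    rw [← map_zero (algebraMap O (FractionRing O)), ← hc, Fintype.sum_prod_type]
    simp only [sum_pow_char_pow, smul_pow, hd, Finset.sum_mul, smul_mul_assoc, mul_comm (f _)])
  rw [← hd, hf (fun j => d (ij.1, j)) (inj (((pow_eq_zero_iff hq).1 (congrFun this ij.1)).trans
    (map_zero _).symm)) ij.2, zero_pow hq]

end Pool.Agent.MP_6a4325_al.H36
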