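import Pool.Agent.MP_6a4325_al.H62.Spec

/-!
Row SET: a set system with large private parts, and expansion in non amenable groups.
-/

set_option autoImplicit false

namespace Pool.Agent.MP_6a4325_al.H36

open Pool.Agent.MP_6a4325_al.H62
open scoped Pointwise

theorem ex_level (i L : ℕ) (hi : 0 < i) (h : 2 * i ≤ 2 ^ L) :
    ∃ k, k ≤ L ∧ 2 * i ≤ 2 ^ k ∧ 2 ^ k ≤ 4 * i := by
  classical
  have hex : ∃ k, 2 * i ≤ 2 ^ k := ⟨L, h⟩
  refine ⟨Nat.find hex, Nat.find_min' hex h, Nat.find_spec hex, ?_⟩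
  rcases hk : Nat.find hex with _ | k
  · omega
  · have h2 := Nat.find_min hex (m := k) (by omega)
    rw [pow_succ]
    omega

theorem card_lt (Q T : ℕ) (h : T ≤ Q) :
    (Finset.univ.filter fun x : Fin Q => x.val < T).card = T := by
  rw [Fin.card_filter_val_lt]
  omega

theorem card_ge (Q T : ℕ) (h : T ≤ Q) :
    (Finset.univ.filter fun x : Fin Q => ¬ x.val < T).card = Q - T := by
  have h1 := Finset.card_filter_add_card_filter_not (s := (Finset.univ : Finset (Fin Q)))
    (fun x : Fin Q => x.val < T)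
  rw [card_lt Q T h, Finset.card_univ, Fintype.card_fin] at h1
  omega

/-- the number of points private to `s` at a level -/
theorem count (S : Type) [Fintype S] [DecidableEq S] (Q T M : ℕ) (hQ : Q = T * M) (hT : 0 < T)
    (I : Finset S) (s : S) (hs : s ∈ I) (h1 : 2 * I.card ≤ M) (h2 : M ≤ 4 * I.card) :
    ∃ A : Finset (S → Fin Q), (∀ w ∈ A, (w s).val < T ∧ ∀ t ∈ I, t ≠ s → ¬ (w t).val < T) ∧
      Q ^ Fintype.card S ≤ 8 * I.card * A.card := by
  have hi : 0 < I.card := Finset.card_pos.2 ⟨s, hs⟩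
  have hM : 0 < M := by omega
  have hTQ : T ≤ Q := by rw [hQ]; exact Nat.le_mul_of_pos_right _ hM
  let B : S → Finset (Fin Q) := fun t =>
    if t = s then Finset.univ.filter fun x : Fin Q => x.val < T
    else if t ∈ I then Finset.univ.filter fun x : Fin Q => ¬ x.val < T else Finset.univ
  refine ⟨Fintype.piFinset B, ?_, ?_⟩
  · intro w hw
    rw [Fintype.mem_piFinset] at hw
    refine ⟨?_, fun t ht hts => ?_⟩
    · have h := hw s
      simp only [B, if_true] at h
      exact (Finset.mem_filter.1 h).2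
    · have h := hw t
      simp only [B, if_neg hts, if_pos ht] at h
      exact (Finset.mem_filter.1 h).2
  · rw [Fintype.card_piFinset]
    have hMr : (0 : ℝ) < M := by exact_mod_cast hM
    let p : S → ℝ := fun t => if t = s then 1 / M else if t ∈ I then 1 - 1 / M else 1
    have hB : ∀ t, ((B t).card : ℝ) = Q * p t := by
      intro t
      by_cases hts : t = s
      · simp only [B, p, if_pos hts]
        rw [card_lt Q T hTQ, hQ]
        push_cast
        field_simp
      · by_cases ht : t ∈ I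
        · simp only [B, p, if_neg hts, if_pos ht]
          rw [card_ge Q T hTQ, Nat.cast_sub hTQ, hQ]
          push_cast
          field_simp
        · simp only [B, p, if_neg hts, if_neg ht]
          simp
    have hp : ∏ t, p t = 1 / M * (1 - 1 / M) ^ (I.card - 1) := by
      rw [← Finset.mul_prod_erase Finset.univ p (Finset.mem_univ s)]
      have e1 : p s = 1 / M := by simp [p]
      have e2 : ∏ t ∈ Finset.univ.erase s, p t = ∏ t ∈ I.erase s, p t := by
        symm
        apply Finset.prod_subset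
        · exact Finset.erase_subset_erase _ (Finset.subset_univ _)
        · intro t ht hn
          have hts : t ≠ s := Finset.ne_of_mem_erase ht
          have htI : t ∉ I := fun h => hn (Finset.mem_erase.2 ⟨hts, h⟩)
          simp only [p, if_neg hts, if_neg htI]
      have e3 : ∏ t ∈ I.erase s, p t = ∏ _t ∈ I.erase s, (1 - 1 / (M : ℝ)) := by
        apply Finset.prod_congr rfl
        intro t ht
        simp only [p, if_neg (Finset.ne_of_mem_erase ht), if_pos (Finset.mem_of_mem_erase ht)]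
      rw [e1, e2, e3, Finset.prod_const, Finset.card_erase_of_mem hs]
    have h1r : (2 : ℝ) * I.card ≤ M := by exact_mod_cast h1
    have h2r : (M : ℝ) ≤ 4 * I.card := by exact_mod_cast h2
    have hir : (1 : ℝ) ≤ I.card := by exact_mod_cast hi
    have hbern : (1 : ℝ) / 2 ≤ (1 - 1 / M) ^ (I.card - 1) := by
      have hb := one_add_mul_le_pow (a := -(1 / (M : ℝ))) (by
        have : (1 : ℝ) / M ≤ 1 := by rw [div_le_one hMr]; linarith
        linarith) (I.card - 1)
      rw [Nat.cast_sub hi, ← sub_eq_add_neg] at hb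
      refine le_trans ?_ hb
      have : ((I.card : ℝ) - 1) * (1 / M) ≤ 1 / 2 := by
        rw [mul_one_div, div_le_iff₀ hMr]; linarith
      push_cast
      linarith
    have key : ((Q : ℝ)) ^ Fintype.card S ≤ 8 * I.card * ∏ t, ((B t).card : ℝ) := by
      rw [Finset.prod_congr rfl fun t _ => hB t, Finset.prod_mul_distrib, Finset.prod_const,
        Finset.card_univ, hp]
      have hq : (0 : ℝ) ≤ (Q : ℝ) ^ Fintype.card S := by positivity
      have h3 : (1 : ℝ) ≤ 8 * I.card * (1 / M * (1 - 1 / M) ^ (I.card - 1)) := by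
        have h4 : (1 : ℝ) ≤ 4 * I.card * (1 / M) := by
          rw [mul_one_div, le_div_iff₀ hMr]; linarith
        have h5 : (0 : ℝ) ≤ 8 * I.card * (1 / M) := by positivity
        have h6 := mul_le_mul_of_nonneg_left hbern h5
        nlinarith
      have h7 := mul_le_mul_of_nonneg_left h3 hq
      nlinarith
    exact_mod_cast key

theorem set_sys : H62.SSet := by
  classical
  intro S _ L hL
  let Y : Type := Fin (L + 1) × (S → Fin (2 ^ L))
  let e : Y ≃ Fin (Fintype.card Y) := Fintype.equivFin Y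
  have hY : Fintype.card Y = (L + 1) * (2 ^ L) ^ Fintype.card S := by
    simp only [Y, Fintype.card_prod, Fintype.card_fin, Fintype.card_pi, Finset.prod_const,
      Finset.card_univ]
  refine ⟨Fintype.card Y, fun s => {y | ((e.symm y).2 s).val < 2 ^ (L - (e.symm y).1.val)},
    by rw [hY]; positivity, fun I s hs => ?_⟩
  have hi : 0 < I.card := Finset.card_pos.2 ⟨s, hs⟩
  have hI : I.card ≤ Fintype.card S := Finset.card_le_univ I
  obtain ⟨k, hk, hk1, hk2⟩ := ex_level I.card L hi (by omega)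
  obtain ⟨A, hA, hc⟩ := count S (2 ^ L) (2 ^ (L - k)) (2 ^ k)
    (by rw [← pow_add, Nat.sub_add_cancel hk]) (by positivity) I s hs hk1 hk2
  let φ : (S → Fin (2 ^ L)) → Fin (Fintype.card Y) := fun w => e (⟨k, by omega⟩, w)
  have hφ : Function.Injective φ := by
    intro w w' h
    exact (Prod.ext_iff.1 (e.injective h)).2
  have hle : A.card ≤ Set.ncard {y : Fin (Fintype.card Y) |
      y ∈ {y | ((e.symm y).2 s).val < 2 ^ (L - (e.symm y).1.val)} ∧ ∀ t ∈ I, t ≠ s →
        y ∉ {y | ((e.symm y).2 t).val < 2 ^ (L - (e.symm y).1.val)}} := by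
    rw [← Set.ncard_coe_finset A, ← Set.ncard_image_of_injective _ hφ]
    refine Set.ncard_le_ncard ?_ (Set.toFinite _)
    rintro _ ⟨w, hw, rfl⟩
    have h := hA w hw
    simp only [φ, Set.mem_ofPred_eq, Equiv.symm_apply_apply]
    exact h
  calc Fintype.card Y = (L + 1) * (2 ^ L) ^ Fintype.card S := hY
    _ ≤ (L + 1) * (8 * I.card * A.card) := Nat.mul_le_mul_left _ hc
    _ = 8 * (L + 1) * I.card * A.card := by ring
    _ ≤ _ := Nat.mul_le_mul_left _ hle

theorem grow {G : Type} [Group G] [DecidableEq G] (h : ¬ Amen G) :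
    ∃ (S : Finset G) (ε : ℝ), 0 < ε ∧ ∀ Φ : Finset G, (1 + ε) * Φ.card ≤ (S * Φ).card := by
  unfold Amen at h
  push Not at h
  obtain ⟨S, ε, hε, h⟩ := h
  refine ⟨insert 1 S, ε, hε, fun Φ => ?_⟩
  rcases Φ.eq_empty_or_nonempty with rfl | hΦ
  · simp
  obtain ⟨s, hs, hlt⟩ := h Φ hΦ
  let B : Finset G := Φ.filter fun x => s * x ∉ Φ
  have hB : {x : G | x ∈ Φ ∧ s * x ∉ Φ} = ↑B := by
    ext x
    simp [B]
  rw [hB, Set.ncard_coe_finset] at hlt
  have hd : Disjoint Φ (B.image fun x => s * x) := by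
    rw [Finset.disjoint_left]
    intro y hy hy'
    obtain ⟨x, hx, rfl⟩ := Finset.mem_image.1 hy'
    exact (Finset.mem_filter.1 hx).2 hy
  have hsub : Φ ∪ B.image (fun x => s * x) ⊆ insert 1 S * Φ := by
    intro y hy
    rcases Finset.mem_union.1 hy with hy | hy
    · rw [← one_mul y]
      exact Finset.mul_mem_mul (Finset.mem_insert_self _ _) hy
    · obtain ⟨x, hx, rfl⟩ := Finset.mem_image.1 hy
      exact Finset.mul_mem_mul (Finset.mem_insert_of_mem hs) (Finset.mem_filter.1 hx).1
  have hc := Finset.card_le_card hsub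
  rw [Finset.card_union_of_disjoint hd,
    Finset.card_image_of_injective _ (mul_right_injective s)] at hc
  have hc' : (Φ.card : ℝ) + B.card ≤ (insert 1 S * Φ).card := by exact_mod_cast hc
  linarith

theorem expand : SExp := by
  classical
  intro G _ h
  obtain ⟨S, ε, hε, hS⟩ := grow h
  have hpow : ∀ (r : ℕ) (Φ : Finset G), (1 + ε) ^ r * Φ.card ≤ (S ^ r * Φ).card := by
    intro r
    induction r with
    | zero => intro Φ; simp
    | succ r ih =>
      intro Φ
      rw [pow_succ' S, mul_assoc, pow_succ' (1 + ε), mul_assoc]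
      exact le_trans (mul_le_mul_of_nonneg_left (ih Φ) (by linarith)) (hS _)
  obtain ⟨m, hm⟩ := exists_nat_ge (32 * (2 * S.card + 2) / ε ^ 2 + 1)
  have hε2 : 0 < ε ^ 2 := by positivity
  have hq : (0 : ℝ) ≤ 32 * (2 * S.card + 2) / ε ^ 2 := by positivity
  have hm1 : (1 : ℝ) ≤ m := by linarith
  have hm2 : (32 : ℝ) * (2 * S.card + 2) ≤ m * ε ^ 2 := by
    rw [← div_le_iff₀ hε2]; linarith
  have hbig : (32 : ℝ) * (S.card * (2 * m) + 1 + 1) ≤ (1 + ε) ^ (2 * m) := by
    have hb := one_add_mul_le_pow (a := ε) (by linarith) m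
    have h0 : (0 : ℝ) ≤ m * ε := by positivity
    have h1 : (m * ε) ^ 2 ≤ ((1 + ε) ^ m) ^ 2 := pow_le_pow_left₀ h0 (by linarith) 2
    rw [← pow_mul, mul_comm m 2] at h1
    have h2 := mul_le_mul_of_nonneg_left hm2 (by linarith : (0 : ℝ) ≤ m)
    have hc : (0 : ℝ) ≤ S.card := by positivity
    nlinarith
  refine ⟨S ^ (2 * m), S.card * (2 * m) + 1, ?_, fun Ψ => ?_⟩
  · have h1 : (S ^ (2 * m)).card ≤ S.card ^ (2 * m) := Finset.card_pow_le
    have h2 : S.card ^ (2 * m) ≤ (2 ^ S.card) ^ (2 * m) :=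
      Nat.pow_le_pow_left Nat.lt_two_pow_self.le _
    rw [pow_succ, pow_mul 2]
    omega
  · have hset : {g : G | ∃ s ∈ S ^ (2 * m), g * s ∈ Ψ} = ↑((S ^ (2 * m) * Ψ⁻¹)⁻¹) := by
      ext g
      simp only [Set.mem_ofPred_eq, Finset.mem_coe, Finset.mem_inv', Finset.mem_mul]
      constructor
      · rintro ⟨s, hs, hg⟩
        exact ⟨s, hs, (g * s)⁻¹, by rwa [inv_inv], by group⟩
      · rintro ⟨s, hs, x, hx, hg⟩
        refine ⟨s, hs, ?_⟩
        have e : g * s = x⁻¹ := by
          rw [← inv_inv g, ← hg]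
          group
        rwa [e]
    rw [hset, Set.ncard_coe_finset, Finset.card_inv]
    have h1 := hpow (2 * m) Ψ⁻¹
    rw [Finset.card_inv] at h1
    have h2 := mul_le_mul_of_nonneg_right hbig (by positivity : (0 : ℝ) ≤ Ψ.card)
    have h3 : (32 : ℝ) * (S.card * (2 * m) + 1 + 1) * Ψ.card ≤ (S ^ (2 * m) * Ψ⁻¹).card :=
      h2.trans h1
    exact_mod_cast h3

end Pool.Agent.MP_6a4325_al.H36
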